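import Mathlib
import Pool.Agent.Lib.MP_f9fa2e_lc.NotRC3

set_option autoImplicit false

namespace Pool.Agent.Results.MP_f9fa2e_lc.RadicalConjectureFails

open Pool.Agent.Lib.SymZF

/-- There is a model of `ZF` (with standard natural numbers) in which `8 RC_fin` holds and
`RC_11` fails. As `8 < 11` and `11 ≡ 1` modulo `2`, the product of the primes dividing `8`,
the conjectured characterization of the pairs with `n RC_fin ⇒ RC_m` is false. -/
theorem result :
    (∃ (M : Type) (E : M → M → Prop), IsZF E ∧ OmegaStd E ∧ RCfin E 8 ∧ ¬ RC E 11) ∧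
    ¬ ∀ n m : ℕ, 1 ≤ n → 2 ≤ m →
      ((∀ (M : Type) (E : M → M → Prop), IsZF E → RCfin E n → RC E m) ↔
        (n < m ∧ m ≡ 1 [MOD ∏ p ∈ n.primeFactors, p])) := by
  refine ⟨Pool.Agent.Lib.MP_f9fa2e_lc.main, fun h => ?_⟩
  obtain ⟨M, E, h1, _, h2, h3⟩ := Pool.Agent.Lib.MP_f9fa2e_lc.main
  refine h3 ((h 8 11 (by norm_num) (by norm_num)).2 ⟨by norm_num, ?_⟩ M E h1 h2)
  have e : (8 : ℕ).primeFactors = {2} := by
    rw [show (8 : ℕ) = 2 ^ 3 by norm_num, Nat.primeFactors_pow _ (by norm_num),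
      Nat.Prime.primeFactors Nat.prime_two]
  rw [e, Finset.prod_singleton]
  decide

end Pool.Agent.Results.MP_f9fa2e_lc.RadicalConjectureFails
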